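import Pool.Agent.Helper97.BestAction.Complete
import Pool.Agent.Helper97.BestAction.Game

/-!
# The modal logic of best action on finite game trees is decidable, hence axiomatizable

The definitions of formulas, finite game trees, relational Backward Induction, truth, validity and
of the Goedel numbering are in `Pool.Agent.Helper97.BestAction.Defs`.

Outline of the proof. Relative to the finitely many formulas with Goedel number below a bound `M`,
the preference modality of player `j` sees an end node only through its position (cell) among
finitely many thresholds. The local characterisation of the backward induction moves yields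
conditions on the cells of the outcomes of the children of a node. Conversely, a finite tree whose
nodes carry states satisfying these local conditions can be turned into a game tree: order the end
nodes by their cell and, inside an open cell, by the number of non-best moves on the path from the
root. So a formula is refutable if and only if a finite bottom-up tree automaton reaches an
accepting state, and this is a primitive recursive property of the formula.
-/

namespace Pool.Agent.Results.MP_b6c00a_lc.Decidable

open Pool.Agent.Helper97.BestAction

/-- The formulas derivable from the set of axioms `Ax` with the rules modus ponens (from `φ` and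
`¬ (φ ∧ ¬ ψ)` infer `ψ`) and necessitation (from `φ` infer the box of `φ`, for each relation). -/
inductive Derivable {k : ℕ} (Ax : Set (Formula k)) : Formula k → Prop
  | ax {φ : Formula k} : φ ∈ Ax → Derivable Ax φ
  | mp {φ ψ : Formula k} : Derivable Ax φ → Derivable Ax (.neg (.and φ (.neg ψ))) → Derivable Ax ψ
  | nec {φ : Formula k} (r : Rel k) : Derivable Ax φ → Derivable Ax (Formula.box r φ)

/-- Validity is the complement of the arithmetical predicate `Refutable`. -/
theorem valid_iff {k : ℕ} (hk : 0 < k) (φ : Formula k) : Valid φ ↔ ¬ Refutable k φ.code := by
  have e : Formula.ofCode k φ.code = φ := Formula.ofCode_code φ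
  constructor
  · intro hv hr
    have := not_valid_of_refutable hk hr
    rw [e] at this
    exact this hv
  · intro hr
    by_contra hv
    apply hr
    apply refutable_of_not_valid
    rwa [e]

theorem valid_primrec {k : ℕ} (hk : 0 < k) : PrimrecPred fun φ : Formula k => Valid φ := by
  have h := pr_Refutable k (f := fun φ : Formula k => Encodable.encode φ) Primrec.encode
  exact (PR.not h).of_eq fun φ => (valid_iff hk φ).symm

theorem valid_of_derivable {k : ℕ} {φ : Formula k} (h : Derivable {ψ | Valid ψ} φ) : Valid φ := by
  induction h with
  | ax h => exact h
  | mp _ _ ih1 ih2 =>
    intro G val x
    by_contra hn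
    exact ih2 G val x ⟨ih1 G val x, hn⟩
  | nec r _ ih =>
    intro G val x
    rintro ⟨y, _, hy⟩
    exact hy (ih G val y)

/-- Sanity check: the syntactic operations are primitive recursive for the Goedel numbering. -/
theorem primrec_constructors (k : ℕ) :
    Primrec (Formula.letter : ℕ → Formula k) ∧ Primrec (Formula.neg : Formula k → Formula k) ∧
    Primrec₂ (Formula.and : Formula k → Formula k → Formula k) ∧
    ∀ r : Rel k, Primrec (Formula.dia r : Formula k → Formula k) := by
  refine ⟨Primrec.encode_iff.1 ?_, Primrec.encode_iff.1 ?_, Primrec₂.encode_iff.1 ?_,
    fun r => Primrec.encode_iff.1 ?_⟩
  · exact PR.add (PR.const (k + 1)) (PR.add (PR.mul (PR.const (7 + 2 * k)) PR.id) (PR.const 0))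
  · exact pr_cNeg k Primrec.encode
  · exact pr_cAnd k (Primrec.encode.comp Primrec.fst) (Primrec.encode.comp Primrec.snd)
  · exact pr_cDia k (PR.const r.tag) Primrec.encode

/-- For every nonempty finite set of players, the set of valid formulas of the modal logic of best
action on finite game trees is primitive recursive; in particular it is decidable, and there is a
recursively enumerable system of axioms which, with modus ponens and necessitation, derives
exactly the valid formulas. -/
theorem result (k : ℕ) (hk : 0 < k) :
    PrimrecPred (fun φ : Formula k => Valid φ) ∧
    ComputablePred (fun φ : Formula k => Valid φ) ∧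
    ∃ Ax : Set (Formula k), REPred (fun φ => φ ∈ Ax) ∧
      ∀ φ : Formula k, Derivable Ax φ ↔ Valid φ :=
  ⟨valid_primrec hk, (valid_primrec hk).computablePred, {ψ | Valid ψ},
    (valid_primrec hk).computablePred.to_re,
    fun _ => ⟨valid_of_derivable, fun h => .ax h⟩⟩

end Pool.Agent.Results.MP_b6c00a_lc.Decidable
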